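import Pool.Agent.Helper64.Rig.Basics

/-!
# Packet Gal: projections on the lines of the monomials
-/

namespace Pool.Agent.Helper68.Rig

open Pool.Agent.Helper64.Rig Polynomial

variable {K : Type} [Field K] [Algebra ℂ K] {ζ : ℂ} {x : Jx → K}

theorem prim_K (h : Cov ζ x) : IsPrimitiveRoot (algebraMap ℂ K ζ) 5 :=
  h.prim.map_of_injective (algebraMap ℂ K).injective

theorem x_pow_mem (h : Cov ζ x) (j : Jx) : x j ^ 5 ∈ KB x := by
  rw [pow_five h]
  exact neg_mem (el_mem_KB j)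

theorem x_root (h : Cov ζ x) (j : Jx) :
    Polynomial.aeval (x j) (X ^ 5 - C (⟨x j ^ 5, x_pow_mem h j⟩ : KB x)) = 0 := by
  simp only [map_sub, map_pow, Polynomial.aeval_X, Polynomial.aeval_C]
  exact sub_self _

theorem x_integral (h : Cov ζ x) (j : Jx) : IsIntegral (KB x) (x j) :=
  ⟨X ^ 5 - C (⟨x j ^ 5, x_pow_mem h j⟩ : KB x), Polynomial.monic_X_pow_sub_C _ (by norm_num),
    by rw [← Polynomial.aeval_def]; exact x_root h j⟩

theorem x_splits (h : Cov ζ x) (j : Jx) :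
    ((minpoly (KB x) (x j)).map (algebraMap (KB x) K)).Splits := by
  have h1 : (X ^ 5 - C (x j ^ 5) : K[X]).Splits :=
    X_pow_sub_C_splits_of_isPrimitiveRoot (prim_K h) rfl
  have h2 : minpoly (KB x) (x j) ∣ X ^ 5 - C (⟨x j ^ 5, x_pow_mem h j⟩ : KB x) :=
    minpoly.dvd _ _ (x_root h j)
  have h3 := Polynomial.map_dvd (algebraMap (KB x) K) h2
  have h4 : (X ^ 5 - C (⟨x j ^ 5, x_pow_mem h j⟩ : KB x)).map (algebraMap (KB x) K)
      = X ^ 5 - C (x j ^ 5) := by
    simp only [Polynomial.map_sub, Polynomial.map_pow, Polynomial.map_X, Polynomial.map_C]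
    rfl
  rw [h4] at h3
  exact h1.of_dvd (Polynomial.X_pow_sub_C_ne_zero (by norm_num) _) h3

theorem adjoin_top (h : Cov ζ x) : IntermediateField.adjoin (KB x) (Set.range x) = ⊤ :=
  IntermediateField.adjoin_eq_top_of_adjoin_eq_top ℂ h.gen

theorem fd (h : Cov ζ x) : FiniteDimensional (KB x) K := by
  have h1 : FiniteDimensional (KB x) (IntermediateField.adjoin (KB x) (Set.range x)) :=
    IntermediateField.finiteDimensional_adjoin (by rintro _ ⟨j, rfl⟩; exact x_integral h j)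
  rw [adjoin_top h] at h1
  exact Module.Finite.equiv (IntermediateField.topEquiv (F := KB x) (E := K)).toLinearEquiv

theorem galois (h : Cov ζ x) : IsGalois (KB x) K := by
  have := fd h
  have : CharZero (KB x) := charZero_of_injective_algebraMap (algebraMap ℂ (KB x)).injective
  have : Normal (KB x) K := normal_iff.2 fun y => ⟨Algebra.IsIntegral.isIntegral y, by
    have hy : y ∈ IntermediateField.adjoin (KB x) (Set.range x) := by
      rw [adjoin_top h]; exact IntermediateField.mem_top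
    refine IntermediateField.splits_of_mem_adjoin (KB x) K (L := K) (fun z hz => ?_) hy
    obtain ⟨j, rfl⟩ := hz
    exact ⟨x_integral h j, x_splits h j⟩⟩
  exact ⟨⟩

/-- The Galois group acts on the `x j` by constants. -/
theorem exists_const (h : Cov ζ x) (τ : K ≃ₐ[KB x] K) (j : Jx) :
    ∃ c : ℂ, c ^ 5 = 1 ∧ τ (x j) = algebraMap ℂ K c * x j := by
  have h1 : (τ (x j) / x j) ^ 5 = 1 := by
    rw [div_pow, ← map_pow]
    have : τ (x j ^ 5) = x j ^ 5 := τ.commutes ⟨x j ^ 5, x_pow_mem h j⟩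
    rw [this, div_self (pow_ne_zero _ (x_ne h j))]
  obtain ⟨i, -, hi⟩ := (prim_K h).eq_pow_of_pow_eq_one h1
  refine ⟨ζ ^ i, ?_, ?_⟩
  · rw [← pow_mul, mul_comm, pow_mul, h.prim.pow_eq_one, one_pow]
  · rw [map_pow, hi, div_mul_cancel₀ _ (x_ne h j)]

theorem geom_zero {z : ℂ} (h5 : z ^ 5 = 1) : ∑ e : Fin 5, (z⁻¹) ^ (e : ℕ) = if z = 1 then 5 else 0 := by
  split_ifs with hz
  · subst hz
    simp
  · have hz0 : z ≠ 0 := by
      rintro rfl
      norm_num at h5
    have h1 : z⁻¹ ^ 5 = 1 := by rw [inv_pow, h5, inv_one]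
    have h2 : z⁻¹ ≠ 1 := by
      simpa using hz
    rw [Fin.sum_univ_eq_sum_range (fun i => (z⁻¹) ^ i) 5, geom_sum_eq h2, h1, sub_self, zero_div]

theorem pf_Gal : StmtGal := by
  intro K _ _ ζ x h
  classical
  have := fd h
  have := galois h
  choose c hc5 hcx using fun τ : K ≃ₐ[KB x] K => exists_const h τ
  have hc0 : ∀ τ j, c τ j ≠ 0 := fun τ j h0 => by
    have := hc5 τ j
    rw [h0] at this
    norm_num at this
  -- the characters
  set χ : (Jx → ℕ) → (K ≃ₐ[KB x] K) → ℂ := fun a τ => ∏ j, c τ j ^ a j with hχ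
  have hχ0 : ∀ a τ, χ a τ ≠ 0 := fun a τ => Finset.prod_ne_zero_iff.2 fun j _ =>
    pow_ne_zero _ (hc0 τ j)
  have hmono : ∀ (b : Jx → ℕ) τ, τ (mono x b) = algebraMap ℂ K (χ b τ) * mono x b := by
    intro b τ
    simp only [mono, hχ, map_prod, map_pow, hcx, mul_pow, Finset.prod_mul_distrib]
  have hτC : ∀ (τ : K ≃ₐ[KB x] K) (z : ℂ), τ (algebraMap ℂ K z) = algebraMap ℂ K z := by
    intro τ z
    exact τ.commutes (algebraMap ℂ (KB x) z)
  have hmul : ∀ a τ σ, χ a (τ * σ) = χ a τ * χ a σ := by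
    intro a τ σ
    apply (algebraMap ℂ K).injective
    apply mul_right_cancel₀ (mono_ne h a)
    rw [← hmono, AlgEquiv.mul_apply, hmono, map_mul, hτC, hmono, map_mul]
    ring
  have hone : ∀ τ, (∀ j, c τ j = 1) → τ = 1 := by
    intro τ hτ
    have h1 : ∀ y ∈ IntermediateField.adjoin (KB x) (Set.range x), τ y = y := by
      intro y hy
      induction hy using IntermediateField.adjoin_induction with
      | mem y hy =>
        obtain ⟨j, rfl⟩ := hy
        rw [hcx, hτ, map_one, one_mul]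
      | algebraMap y => exact τ.commutes y
      | add a b _ _ ha hb => rw [map_add, ha, hb]
      | inv a _ ha => rw [map_inv₀, ha]
      | mul a b _ _ ha hb => rw [map_mul, ha, hb]
    ext y
    exact h1 y (by rw [adjoin_top h]; exact IntermediateField.mem_top)
  have hsum : ∀ τ, ∑ ψ : Jx → Fin 5, (χ (fun j => (ψ j : ℕ)) τ)⁻¹ =
      if τ = 1 then (5 : ℂ) ^ 15 else 0 := by
    intro τ
    have h1 : ∑ ψ : Jx → Fin 5, (χ (fun j => (ψ j : ℕ)) τ)⁻¹ =
        ∏ j : Jx, ∑ e : Fin 5, ((c τ j)⁻¹) ^ (e : ℕ) := by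
      rw [Finset.prod_univ_sum]
      simp only [Fintype.piFinset_univ]
      refine Finset.sum_congr rfl fun ψ _ => ?_
      simp only [hχ, inv_pow, Finset.prod_inv_distrib]
    rw [h1]
    simp only [geom_zero (hc5 τ _)]
    by_cases hτ : τ = 1
    · have h2 : ∀ j, c τ j = 1 := by
        intro j
        have h3 := hcx τ j
        have h4 : algebraMap ℂ K (c τ j) * x j = 1 * x j := by
          rw [← h3, one_mul, hτ, AlgEquiv.one_apply]
        have h5 := mul_right_cancel₀ (x_ne h j) h4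
        rw [← map_one (algebraMap ℂ K)] at h5
        exact (algebraMap ℂ K).injective h5
      rw [if_pos hτ]
      simp only [h2, if_true, Finset.prod_const, Finset.card_univ]
      simp [Jx]
    · rw [if_neg hτ]
      obtain ⟨j, hj⟩ : ∃ j, c τ j ≠ 1 := by
        by_contra hcon
        push Not at hcon
        exact hτ (hone τ hcon)
      exact Finset.prod_eq_zero (Finset.mem_univ j) (if_neg hj)
  -- the projections
  let lt : (K ≃ₐ[KB x] K) → K →ₗ[ℂ] K := fun τ => (τ.toAlgHom.restrictScalars ℂ).toLinearMap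
  have hlt : ∀ τ f, lt τ f = τ f := fun _ _ => rfl
  let π : (Jx → Fin 5) → K →ₗ[ℂ] K := fun ψ =>
    ∑ τ, (((5 : ℂ) ^ 15)⁻¹ * (χ (fun j => (ψ j : ℕ)) τ)⁻¹) • lt τ
  have hπ : ∀ ψ f, π ψ f = ∑ τ, algebraMap ℂ K (((5 : ℂ) ^ 15)⁻¹ *
      (χ (fun j => (ψ j : ℕ)) τ)⁻¹) * τ f := by
    intro ψ f
    simp only [π, LinearMap.sum_apply, LinearMap.smul_apply, hlt]
    exact Finset.sum_congr rfl fun τ _ => Algebra.smul_def _ _
  refine ⟨Jx → Fin 5, inferInstance, π, ?_, ?_, ?_, ?_, ?_⟩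
  · intro f
    simp only [hπ]
    rw [Finset.sum_comm]
    simp only [← Finset.sum_mul, ← map_sum, ← Finset.mul_sum, hsum]
    rw [Finset.sum_eq_single (1 : K ≃ₐ[KB x] K)]
    · rw [if_pos rfl, inv_mul_cancel₀ (by norm_num), map_one, one_mul, AlgEquiv.one_apply]
    · intro τ _ hτ
      rw [if_neg hτ, mul_zero, map_zero, zero_mul]
    · intro h0
      exact absurd (Finset.mem_univ _) h0
  · intro ψ
    refine ⟨fun j => (ψ j : ℕ), fun f => ?_⟩
    set a : Jx → ℕ := fun j => (ψ j : ℕ) with ha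
    have h1 : ∀ σ : K ≃ₐ[KB x] K, σ (π ψ f) = algebraMap ℂ K (χ a σ) * π ψ f := by
      intro σ
      rw [hπ, map_sum, Finset.mul_sum]
      refine Fintype.sum_equiv (Equiv.mulLeft σ) _ _ fun τ => ?_
      rw [Equiv.coe_mulLeft, hmul, map_mul, hτC, AlgEquiv.mul_apply, ← mul_assoc, ← map_mul]
      congr 2
      have hne1 := hχ0 a σ
      have hne2 := hχ0 a τ
      change ((5 : ℂ) ^ 15)⁻¹ * (χ a τ)⁻¹ = χ a σ * (((5 : ℂ) ^ 15)⁻¹ * (χ a σ * χ a τ)⁻¹)
      field_simp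
    have h2 : ∀ σ : K ≃ₐ[KB x] K, σ (π ψ f / mono x a) = π ψ f / mono x a := by
      intro σ
      rw [map_div₀, h1, hmono, mul_div_mul_left]
      exact (_root_.map_ne_zero _).2 (hχ0 a σ)
    obtain ⟨ρ, hρ⟩ := (IsGalois.mem_range_algebraMap_iff_fixed (F := KB x) _).2 h2
    refine ⟨ρ, ρ.2, ?_⟩
    have h3 : (ρ : K) = π ψ f / mono x a := hρ
    rw [h3, div_mul_cancel₀ _ (mono_ne h a)]
  · intro ψ ρ hρ f
    rw [hπ, hπ, Finset.mul_sum]
    refine Finset.sum_congr rfl fun τ _ => ?_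
    have : τ ρ = ρ := τ.commutes ⟨ρ, hρ⟩
    rw [map_mul τ, this]
    ring
  · intro ψ b
    refine ⟨fun j => ⟨((ψ j : ℕ) + b j) % 5, Nat.mod_lt _ (by norm_num)⟩, fun f => ?_⟩
    rw [hπ, hπ, Finset.mul_sum]
    refine Finset.sum_congr rfl fun τ _ => ?_
    have h1 : χ (fun j => ((ψ j : ℕ) + b j) % 5) τ = χ (fun j => (ψ j : ℕ)) τ * χ b τ := by
      simp only [hχ, ← Finset.prod_mul_distrib, ← pow_add]
      refine Finset.prod_congr rfl fun j _ => ?_
      conv_rhs => rw [← Nat.div_add_mod ((ψ j : ℕ) + b j) 5, pow_add, pow_mul, hc5, one_pow,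
        one_mul]
    have h2 : ((5 : ℂ) ^ 15)⁻¹ * (χ (fun j => (ψ j : ℕ)) τ)⁻¹ =
        ((5 : ℂ) ^ 15)⁻¹ * (χ (fun j => (ψ j : ℕ)) τ * χ b τ)⁻¹ * χ b τ := by
      have hne1 := hχ0 b τ
      have hne2 := hχ0 (fun j => (ψ j : ℕ)) τ
      field_simp
    rw [h1, map_mul τ, hmono, h2, map_mul (algebraMap ℂ K) _ (χ b τ)]
    ring
  · intro ψ b
    refine ⟨∑ τ, ((5 : ℂ) ^ 15)⁻¹ * (χ (fun j => (ψ j : ℕ)) τ)⁻¹ * χ b τ, ?_⟩
    rw [hπ, map_sum, Finset.sum_mul]
    refine Finset.sum_congr rfl fun τ _ => ?_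
    rw [hmono, map_mul, map_mul, map_mul]
    ring

end Pool.Agent.Helper68.Rig
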